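import Pool.Agent.W2helper84.TN.Stm

/-!
# Pieces LIE and KER: the 2-envelope of the alternating matrices
-/

set_option autoImplicit false

namespace Pool.Agent.W2helper12.TN

open Pool.Agent.W2helper84.TN Pool.Agent.Results.MP_9adac4_al.SimpleLine

attribute [local instance 100] LieRing.ofAssociativeRing

variable (K : Type*) [Field K] [CharP K 2]

/-- the trace on symmetric matrices -/
def trS : W2helper84.TN.Sym K →ₗ[K] K :=
  (Matrix.traceLinearMap (Fin 6) K K) ∘ₗ (W2helper84.TN.Sym K).subtype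

variable {K}

omit [CharP K 2] in
lemma trS_apply (A : W2helper84.TN.Sym K) : trS K A = A.1.trace := rfl

/-- the square of a symmetric matrix -/
def sq (A : W2helper84.TN.Sym K) : W2helper84.TN.Sym K := ⟨A.1 * A.1, by
  intro i j
  rw [Matrix.mul_apply, Matrix.mul_apply]
  exact Finset.sum_congr rfl fun k _ => by rw [A.2 i k, A.2 k j, mul_comm]⟩

lemma trace_sq (A : W2helper84.TN.Sym K) (h : A.1.trace = 0) : (sq A).1.trace = 0 := by
  have h2 := two_eq (K := K)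
  change (A.1 * A.1).trace = 0
  rw [Matrix.trace] at h ⊢
  simp only [Matrix.diag_apply, Matrix.mul_apply, Fin.sum_univ_six] at h ⊢
  rw [A.2 1 0, A.2 2 0, A.2 3 0, A.2 4 0, A.2 5 0, A.2 2 1, A.2 3 1, A.2 4 1, A.2 5 1, A.2 3 2,
    A.2 4 2, A.2 5 2, A.2 4 3, A.2 5 3, A.2 5 4]
  linear_combination (A.1 0 0 + A.1 1 1 + A.1 2 2 + A.1 3 3 + A.1 4 4 + A.1 5 5) * h +
    (A.1 0 1 ^ 2 + A.1 0 2 ^ 2 + A.1 0 3 ^ 2 + A.1 0 4 ^ 2 + A.1 0 5 ^ 2 + A.1 1 2 ^ 2 +
      A.1 1 3 ^ 2 + A.1 1 4 ^ 2 + A.1 1 5 ^ 2 + A.1 2 3 ^ 2 + A.1 2 4 ^ 2 + A.1 2 5 ^ 2 +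
      A.1 3 4 ^ 2 + A.1 3 5 ^ 2 + A.1 4 5 ^ 2 -
      (A.1 0 0 * A.1 1 1 + A.1 0 0 * A.1 2 2 + A.1 0 0 * A.1 3 3 + A.1 0 0 * A.1 4 4 +
       A.1 0 0 * A.1 5 5 + A.1 1 1 * A.1 2 2 + A.1 1 1 * A.1 3 3 + A.1 1 1 * A.1 4 4 +
       A.1 1 1 * A.1 5 5 + A.1 2 2 * A.1 3 3 + A.1 2 2 * A.1 4 4 + A.1 2 2 * A.1 5 5 +
       A.1 3 3 * A.1 4 4 + A.1 3 3 * A.1 5 5 + A.1 4 4 * A.1 5 5)) * h2

lemma rho_sq (A : W2helper84.TN.Sym K) : rho K A * rho K A = rho K (sq A) := by
  apply LinearMap.ext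
  intro x
  apply Subtype.ext
  rw [Module.End.mul_apply, rho_coe, rho_coe, rho_coe]
  change _ = A.1 * A.1 * x.1 - x.1 * (A.1 * A.1)
  have h2 : (2 : K) • (x.1 * A.1 * A.1 - A.1 * x.1 * A.1) = 0 := by
    rw [two_eq, zero_smul]
  rw [two_smul] at h2
  have e : A.1 * (A.1 * x.1 - x.1 * A.1) - (A.1 * x.1 - x.1 * A.1) * A.1 =
      A.1 * A.1 * x.1 - x.1 * (A.1 * A.1) +
        (x.1 * A.1 * A.1 - A.1 * x.1 * A.1 + (x.1 * A.1 * A.1 - A.1 * x.1 * A.1)) := by
    noncomm_ring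
  rw [e, h2, add_zero]

theorem lie' : StmLIE K := by
  intro f hf
  have h := env_le ((LinearMap.ker (trS K)).map (rho K)) (fun x => ?_) (fun g hg => ?_) f hf
  · obtain ⟨A, hA, rfl⟩ := h
    exact ⟨A, hA, rfl⟩
  · refine ⟨⟨x.1, x.2.1⟩, ?_, ?_⟩
    · change Matrix.trace x.1 = 0
      rw [Matrix.trace]
      exact Finset.sum_eq_zero fun i _ => x.2.2 i
    · apply LinearMap.ext
      intro y
      rfl
  · obtain ⟨A, hA, rfl⟩ := hg
    exact ⟨sq A, trace_sq A hA, (rho_sq A).symm⟩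

theorem ker' : StmKER K := by
  intro A hA
  have key : ∀ i j : Fin 6, i ≠ j → A.1 * (Matrix.single i j 1 + Matrix.single j i 1) =
      (Matrix.single i j 1 + Matrix.single j i 1) * A.1 := by
    intro i j hij
    let x : Alt K := ⟨Matrix.single i j 1 + Matrix.single j i 1, by
      refine ⟨fun a b => ?_, fun a => ?_⟩
      · simp only [Matrix.add_apply, Matrix.single_apply]
        rw [add_comm]
        congr 1 <;> simp only [and_comm]
      · simp only [Matrix.add_apply, Matrix.single_apply]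
        rw [if_neg (by rintro ⟨rfl, h⟩; exact hij h.symm),
          if_neg (by rintro ⟨rfl, h⟩; exact hij h), add_zero]⟩
    have h := congrArg Subtype.val (LinearMap.congr_fun hA x)
    rw [rho_coe] at h
    exact sub_eq_zero.1 h
  have hoff : ∀ k i : Fin 6, k ≠ i → A.1 k i = 0 := by
    intro k i hki
    obtain ⟨j, hj1, hj2⟩ : ∃ j : Fin 6, j ≠ k ∧ j ≠ i := by
      revert k i; decide
    have h := congrFun (congrFun (key i j hj2.symm) k) j
    rw [mul_add, add_mul, Matrix.add_apply, Matrix.add_apply, Matrix.mul_single_apply_same,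
      Matrix.mul_single_apply_of_ne _ _ _ _ _ hj2, Matrix.single_mul_apply_of_ne _ _ _ _ _ hki,
      Matrix.single_mul_apply_of_ne _ _ _ _ _ hj1.symm] at h
    simpa using h
  have hdiag : ∀ i j : Fin 6, i ≠ j → A.1 i i = A.1 j j := by
    intro i j hij
    have h := congrFun (congrFun (key i j hij) i) j
    rw [mul_add, add_mul, Matrix.add_apply, Matrix.add_apply, Matrix.mul_single_apply_same,
      Matrix.mul_single_apply_of_ne _ _ _ _ _ hij.symm, Matrix.single_mul_apply_same,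
      Matrix.single_mul_apply_of_ne _ _ _ _ _ hij] at h
    simpa using h
  refine ⟨A.1 0 0, ?_⟩
  ext a b
  rw [Matrix.smul_apply, smul_eq_mul]
  by_cases hab : a = b
  · subst hab
    rw [Matrix.one_apply_eq, mul_one]
    by_cases h0 : a = 0
    · rw [h0]
    · exact hdiag a 0 h0
  · rw [Matrix.one_apply_ne hab, mul_zero]
    exact hoff a b hab

end Pool.Agent.W2helper12.TN
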